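import Pool.Agent.Helper69.UX.StB

/-!
# Module EXC of the project UX: the number of partitions with given class sizes
-/

set_option autoImplicit false

namespace Pool.Agent.Helper26.UX

open Finset Filter Pool.Agent.Helper82.CN Pool.Agent.Helper11.PV Pool.Agent.Helper69.VX
  Pool.Agent.Helper69.UX

section gen

variable {α ι : Type} [Fintype α] [DecidableEq α] [Fintype ι] [DecidableEq ι]

lemma card_solve_le (f h : α → ι) :
    (univ.filter (fun σ : Equiv.Perm α => f ∘ σ = h)).card ≤
      ∏ i : ι, ((univ.filter (fun a => f a = i)).card).factorial := by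
  have h1 : (univ.filter (fun σ : Equiv.Perm α => f ∘ σ = f)).card =
      ∏ i : ι, ((univ.filter (fun a => f a = i)).card).factorial := by
    rw [← Fintype.card_subtype, DomMulAct.stabilizer_card]
    exact Finset.prod_congr rfl (fun i _ => by rw [Fintype.card_subtype])
  rw [← h1]
  rcases (univ.filter (fun σ : Equiv.Perm α => f ∘ σ = h)).eq_empty_or_nonempty with h0 | ⟨τ, hτ⟩
  · rw [h0]; simp
  · apply Finset.card_le_card_of_injOn (fun σ => σ * τ⁻¹)
    · intro σ hσ
      simp only [coe_filter, mem_univ, true_and, Set.mem_setOf_eq, mem_filter] at hσ hτ ⊢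
      funext x
      have e1 : f (σ (τ⁻¹ x)) = h (τ⁻¹ x) := congrFun hσ _
      have e2 : f (τ (τ⁻¹ x)) = h (τ⁻¹ x) := congrFun hτ _
      have e3 : τ (τ⁻¹ x) = x := by simp
      rw [e3] at e2
      show f (σ (τ⁻¹ x)) = f x
      rw [e1, e2]
    · intro a _ b _ hab
      exact mul_right_cancel hab

/-- the classes of `f` -/
def cls (f : α → ι) : Finset (Finset α) := univ.image (fun j => univ.filter (fun x => f x = j))

lemma cls_inj (f : α → ι) (hne : ∀ j, 0 < (univ.filter (fun x => f x = j)).card) :
    Function.Injective (fun j => univ.filter (fun x => f x = j)) := by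
  intro i j hij
  obtain ⟨x, hx⟩ := Finset.card_pos.mp (hne i)
  have h1 : x ∈ univ.filter (fun x => f x = j) := by
    have : (fun j => univ.filter (fun x => f x = j)) i = (fun j => univ.filter (fun x => f x = j)) j := hij
    simp only at this
    rw [← this]
    exact hx
  simp only [mem_filter, mem_univ, true_and] at hx h1
  rw [← hx, ← h1]

lemma exists_perm (f g : α → ι) (hg : ∀ j, 0 < (univ.filter (fun x => g x = j)).card)
    (hf : ∀ j, 0 < (univ.filter (fun x => f x = j)).card) (hfg : cls f = cls g) :
    ∃ π : Equiv.Perm ι, (∀ j, univ.filter (fun x => f x = j) = univ.filter (fun x => g x = π j)) ∧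
      ∀ x, g x = π (f x) := by
  have h1 : ∀ j, ∃ i, univ.filter (fun x => g x = i) = univ.filter (fun x => f x = j) := by
    intro j
    have : univ.filter (fun x => f x = j) ∈ cls g := by
      rw [← hfg]
      exact mem_image_of_mem _ (mem_univ j)
    obtain ⟨i, _, hi⟩ := mem_image.mp this
    exact ⟨i, hi⟩
  choose p hp using h1
  have hinj : Function.Injective p := by
    intro i j hij
    apply cls_inj f hf
    show univ.filter (fun x => f x = i) = univ.filter (fun x => f x = j)
    rw [← hp i, ← hp j, hij]
  refine ⟨Equiv.ofBijective p (Finite.injective_iff_bijective.mp hinj), ?_, ?_⟩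
  · intro j
    exact (hp j).symm
  · intro x
    have h2 : x ∈ univ.filter (fun y => f y = f x) := by simp
    rw [← hp (f x)] at h2
    simpa using h2

end gen

/-- the index set of the classes -/
abbrev Idx (T : ℕ) (k : ℕ → ℕ) : Type := Σ u : Fin (T + 1), Fin (k u)

lemma card_fst (T : ℕ) (k : ℕ → ℕ) (u : Fin (T + 1)) :
    (univ.filter (fun a : Idx T k => a.1 = u)).card = k u := by
  have : univ.filter (fun a : Idx T k => a.1 = u) = univ.image (fun i : Fin (k u) => (⟨u, i⟩ : Idx T k)) := by
    ext ⟨v, j⟩
    simp only [mem_filter, mem_univ, true_and, mem_image]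
    constructor
    · rintro rfl
      exact ⟨j, rfl⟩
    · rintro ⟨i, hi⟩
      exact (congrArg Sigma.fst hi).symm
  rw [this, card_image_of_injective]
  · simp
  · intro i j hij
    simpa using hij

lemma exists_f0 (n T : ℕ) (k : ℕ → ℕ) (hn : ∑ u ∈ range (T + 1), u * k u = n) :
    ∃ f : Fin n → Idx T k, ∀ j, (univ.filter (fun x => f x = j)).card = (j.1 : ℕ) := by
  have hW : Fintype.card (Fin n) = Fintype.card (Σ j : Idx T k, Fin (j.1 : ℕ)) := by
    rw [Fintype.card_fin, Fintype.card_sigma, Fintype.sum_sigma]
    simp only [Fintype.card_fin, sum_const, card_univ, smul_eq_mul]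
    rw [← hn, Finset.sum_range (fun u => u * k u)]
    exact Finset.sum_congr rfl (fun u _ => mul_comm _ _)
  let e := Fintype.equivOfCardEq hW
  refine ⟨fun x => (e x).1, ?_⟩
  intro j
  have h1 : (univ.filter (fun x => (e x).1 = j)).card =
      (univ.image (fun i : Fin (j.1 : ℕ) => e.symm ⟨j, i⟩)).card := by
    congr 1
    ext x
    simp only [mem_filter, mem_univ, true_and, mem_image]
    constructor
    · intro hx
      subst hx
      exact ⟨(e x).2, by simp⟩
    · rintro ⟨i, rfl⟩
      simp
  rw [h1, card_image_of_injective]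
  · simp
  · intro a b hab
    have := e.symm.injective hab
    simpa using this

lemma idx_pos (T : ℕ) (k : ℕ → ℕ) (hk0 : k 0 = 0) (j : Idx T k) : 0 < (j.1 : ℕ) := by
  obtain ⟨u, i⟩ := j
  rcases Nat.eq_zero_or_pos (u : ℕ) with h | h
  · exfalso
    have hi : (i : ℕ) < k u := i.2
    have h2 : k (u : ℕ) = 0 := by rw [h, hk0]
    omega
  · exact h

lemma cls_card (n T : ℕ) (k : ℕ → ℕ) (hk0 : k 0 = 0) (hT : ∀ u, T < u → k u = 0)
    (f : Fin n → Idx T k) (hf : ∀ j, (univ.filter (fun x => f x = j)).card = (j.1 : ℕ)) (u : ℕ) :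
    ((cls f).filter (fun A => A.card = u)).card = k u := by
  have hpos : ∀ j, 0 < (univ.filter (fun x => f x = j)).card := fun j => by
    rw [hf j]; exact idx_pos T k hk0 j
  have h1 : (cls f).filter (fun A => A.card = u) =
      (univ.filter (fun j : Idx T k => (j.1 : ℕ) = u)).image
        (fun j => univ.filter (fun x => f x = j)) := by
    unfold cls
    rw [filter_image]
    congr 1
    apply filter_congr
    intro j _
    rw [hf j]
  have h2 : ((cls f).filter (fun A => A.card = u)).card =
      (univ.filter (fun j : Idx T k => (j.1 : ℕ) = u)).card := by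
    rw [h1, card_image_of_injective _ (cls_inj f hpos)]
  rw [h2]
  by_cases hu : u ≤ T
  · have h4 := card_fst T k ⟨u, by omega⟩
    have h5 : univ.filter (fun j : Idx T k => (j.1 : ℕ) = u) =
        univ.filter (fun j : Idx T k => j.1 = ⟨u, by omega⟩) := by
      apply filter_congr
      intro j _
      exact (Fin.ext_iff (a := j.1) (b := ⟨u, by omega⟩)).symm
    rw [h5, h4]
  · rw [hT u (by omega), card_eq_zero, filter_eq_empty_iff]
    intro j _ h
    have := j.1.2
    omega

lemma mem_pt (V : Type) [Fintype V] (P : Finset (Finset V)) (h1 : ∀ A ∈ P, A.Nonempty)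
    (h2 : ∀ A ∈ P, ∀ B ∈ P, A ≠ B → Disjoint A B) (h3 : ∀ v : V, ∃ A ∈ P, v ∈ A) : P ∈ Pt V := by
  unfold Pt
  simp only [mem_filter, mem_univ, true_and]
  exact ⟨h1, h2, h3⟩

lemma cls_pt {ι : Type} [Fintype ι] [DecidableEq ι] (n : ℕ)
    (f : Fin n → ι) (hpos : ∀ j, 0 < (univ.filter (fun x => f x = j)).card) :
    cls f ∈ Pt (Fin n) := by
  apply mem_pt
  · intro A hA
    obtain ⟨j, _, hj⟩ := mem_image.mp hA
    rw [← hj]
    exact card_pos.mp (hpos j)
  · intro A hA B hB hAB
    obtain ⟨i, _, hi⟩ := mem_image.mp hA
    obtain ⟨j, _, hj⟩ := mem_image.mp hB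
    have hij : i ≠ j := by
      intro h
      apply hAB
      rw [← hi, ← hj, h]
    rw [← hi, ← hj, disjoint_left]
    intro x hx hx'
    rw [mem_filter] at hx hx'
    exact hij (hx.2.symm.trans hx'.2)
  · intro v
    exact ⟨univ.filter (fun x => f x = f v), mem_image_of_mem _ (mem_univ _), by simp⟩

lemma cls_mem (n T : ℕ) (k : ℕ → ℕ) (hk0 : k 0 = 0) (hT : ∀ u, T < u → k u = 0)
    (f : Fin n → Idx T k) (hf : ∀ j, (univ.filter (fun x => f x = j)).card = (j.1 : ℕ)) :
    cls f ∈ Ex n k := by
  classical
  have hpos : ∀ j, 0 < (univ.filter (fun x => f x = j)).card := fun j => by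
    rw [hf j]; exact idx_pos T k hk0 j
  have h0 := cls_pt n f hpos
  have h1 := cls_card n T k hk0 hT f hf
  unfold Ex
  rw [mem_filter]
  refine ⟨h0, fun u => ?_⟩
  rw [← h1 u]

open Classical in
theorem hEXC : StEXC := by
  intro n T k hk0 hT hn
  refine ⟨?_, ?_⟩
  · obtain ⟨f, hf⟩ := exists_f0 n T k hn
    set M : ℕ := (∏ u : Fin (T + 1), (k u).factorial) *
      ∏ j : Idx T k, ((j.1 : ℕ)).factorial with hM
    have hsize : ∀ σ : Equiv.Perm (Fin n), ∀ j,
        (univ.filter (fun x => (f ∘ σ) x = j)).card = (j.1 : ℕ) := by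
      intro σ j
      rw [← hf j]
      apply Finset.card_bij (fun x _ => σ x)
      · intro x hx
        simp only [mem_filter, mem_univ, true_and, Function.comp] at hx ⊢
        exact hx
      · intro x _ y _ h
        exact σ.injective h
      · intro y hy
        simp only [mem_filter, mem_univ, true_and, Function.comp] at hy
        refine ⟨σ.symm y, ?_, by simp⟩
        simp only [mem_filter, mem_univ, true_and, Function.comp, Equiv.apply_symm_apply]
        exact hy
    have hpos : ∀ σ : Equiv.Perm (Fin n), ∀ j,
        0 < (univ.filter (fun x => (f ∘ σ) x = j)).card := by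
      intro σ j
      rw [hsize σ j]
      exact idx_pos T k hk0 j
    have hmain : (univ : Finset (Equiv.Perm (Fin n))).card ≤ M * (Ex n k).card := by
      apply Finset.card_le_mul_card_image_of_maps_to (f := fun σ : Equiv.Perm (Fin n) => cls (f ∘ σ))
      · intro σ _
        exact cls_mem n T k hk0 hT (f ∘ σ) (hsize σ)
      · intro P hP
        rcases (univ.filter (fun σ : Equiv.Perm (Fin n) => cls (f ∘ σ) = P)).eq_empty_or_nonempty
          with h0 | ⟨τ, hτ⟩
        · rw [h0]; simp
        · rw [mem_filter] at hτ
          have hτ2 : cls (f ∘ τ) = P := hτ.2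
          have hsub : univ.filter (fun σ : Equiv.Perm (Fin n) => cls (f ∘ σ) = P) ⊆
              (univ.filter (fun π : Equiv.Perm (Idx T k) =>
                (Sigma.fst : Idx T k → Fin (T + 1)) ∘ π = Sigma.fst)).biUnion
                (fun π => univ.filter (fun σ : Equiv.Perm (Fin n) =>
                  f ∘ σ = fun x => π.symm (f (τ x)))) := by
            intro σ hσ
            rw [mem_filter] at hσ
            obtain ⟨π, h1, h2⟩ := exists_perm (f ∘ σ) (f ∘ τ) (hpos τ) (hpos σ) (hσ.2.trans hτ2.symm)
            rw [mem_biUnion]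
            refine ⟨π, ?_, ?_⟩
            · rw [mem_filter]
              refine ⟨mem_univ _, ?_⟩
              funext j
              have h3 := congrArg Finset.card (h1 j)
              rw [hsize σ j, hsize τ (π j)] at h3
              exact (Fin.ext h3).symm
            · rw [mem_filter]
              refine ⟨mem_univ _, ?_⟩
              funext x
              have h4 : f (τ x) = π (f (σ x)) := h2 x
              show f (σ x) = π.symm (f (τ x))
              rw [h4, Equiv.symm_apply_apply]
          refine (card_le_card hsub).trans (card_biUnion_le.trans ?_)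
          have hA : (univ.filter (fun π : Equiv.Perm (Idx T k) =>
                (Sigma.fst : Idx T k → Fin (T + 1)) ∘ π = Sigma.fst)).card ≤
                ∏ u : Fin (T + 1), (k u).factorial := by
            refine (card_solve_le (Sigma.fst : Idx T k → Fin (T + 1)) Sigma.fst).trans (le_of_eq ?_)
            exact Finset.prod_congr rfl (fun u _ => by rw [card_fst])
          have hB : ∀ π : Equiv.Perm (Idx T k), (univ.filter (fun σ : Equiv.Perm (Fin n) =>
                  f ∘ σ = fun x => π.symm (f (τ x)))).card ≤
                ∏ j : Idx T k, ((j.1 : ℕ)).factorial := by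
            intro π
            refine (card_solve_le f (fun x => π.symm (f (τ x)))).trans (le_of_eq ?_)
            exact Finset.prod_congr rfl (fun j _ => by rw [hf j])
          refine (Finset.sum_le_card_nsmul _ _ _ (fun π _ => hB π)).trans ?_
          rw [smul_eq_mul, hM]
          exact Nat.mul_le_mul_right _ hA
    rw [card_univ, Fintype.card_perm, Fintype.card_fin] at hmain
    have hM2 : M = ∏ u ∈ range (T + 1), (u.factorial ^ k u * (k u).factorial) := by
      rw [hM, Finset.prod_mul_distrib, mul_comm]
      congr 1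
      · rw [Fintype.prod_sigma, Finset.prod_range (fun u => u.factorial ^ k u)]
        exact Finset.prod_congr rfl (fun u _ => by simp)
      · rw [Finset.prod_range (fun u => (k u).factorial)]
    have h5 : (n.factorial : ℝ) ≤ ((M * (Ex n k).card : ℕ) : ℝ) := by exact_mod_cast hmain
    refine h5.trans (le_of_eq ?_)
    rw [hM2]
    push_cast
    ring
  · intro P hP
    unfold Ex at hP
    rw [mem_filter] at hP
    obtain ⟨_, hk⟩ := hP
    have hle : ∀ A ∈ P, A.card ≤ T := by
      intro A hA
      by_contra h
      have h1 := hk A.card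
      rw [hT _ (by omega), card_eq_zero, filter_eq_empty_iff] at h1
      exact h1 hA rfl
    have hmaps : ∀ A ∈ P, (fun A : Finset (Fin n) => A.card) A ∈ range (T + 1) := fun A hA => by
      have := hle A hA
      simp only [mem_range]
      omega
    refine ⟨?_, ?_, hle⟩
    · rw [card_eq_sum_card_fiberwise (f := fun A : Finset (Fin n) => A.card) (t := range (T + 1))
        (fun A hA => hmaps A hA)]
      exact Finset.sum_congr rfl (fun u _ => hk u)
    · unfold inn
      rw [← Finset.sum_fiberwise_of_maps_to (g := fun A : Finset (Fin n) => A.card) hmaps]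
      apply Finset.sum_congr rfl
      intro u _
      rw [← hk u, ← smul_eq_mul, ← Finset.sum_const]
      apply Finset.sum_congr rfl
      intro A hA
      rw [(mem_filter.mp hA).2]

end Pool.Agent.Helper26.UX
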